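import Mathlib

set_option autoImplicit false

namespace Pool.Agent.Helper14_RF

/-- Tensors with four indices on `ℝⁿ`, given by their components. -/
abbrev Tensor (n : ℕ) : Type := Fin n → Fin n → Fin n → Fin n → ℝ

/-- Algebraic curvature tensors: the symmetries of a Riemann curvature tensor. -/
structure IsCurv {n : ℕ} (R : Tensor n) : Prop where
  anti₁ : ∀ i j k l, R j i k l = - R i j k l
  anti₂ : ∀ i j k l, R i j l k = - R i j k l
  pair : ∀ i j k l, R k l i j = R i j k l
  bianchi : ∀ i j k l, R i j k l + R j k i l + R k i j l = 0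

/-- The quadratic form of the curvature operator of the second kind,
`R°(φ, φ) = ∑ R(e_i, e_k, e_j, e_l) φ_kl φ_ij`. -/
def qform {n : ℕ} (R : Tensor n) (φ : Matrix (Fin n) (Fin n) ℝ) : ℝ :=
  ∑ i, ∑ j, ∑ k, ∑ l, R i k j l * φ k l * φ i j

/-- Positive curvature operator of the second kind. -/
def PosSecondKind {n : ℕ} (R : Tensor n) : Prop :=
  ∀ φ : Matrix (Fin n) (Fin n) ℝ, φ.IsSymm → φ.trace = 0 → φ ≠ 0 → 0 < qform R φ

/-- Nonnegative curvature operator of the second kind. -/
def NonnegSecondKind {n : ℕ} (R : Tensor n) : Prop :=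
  ∀ φ : Matrix (Fin n) (Fin n) ℝ, φ.IsSymm → φ.trace = 0 → 0 ≤ qform R φ

/-- Hamilton's `B_ijkl = ∑ R_ipjq R_kplq`. -/
def B {n : ℕ} (R : Tensor n) : Tensor n := fun i j k l =>
  ∑ p, ∑ q, R i p j q * R k p l q

/-- The reaction term. -/
def Q {n : ℕ} (R : Tensor n) : Tensor n := fun i j k l =>
  -2 * (B R i j k l - B R i j l k - B R i l j k + B R i k j l)

lemma B_swap {n : ℕ} {R : Tensor n} (hR : IsCurv R) (i j k l : Fin n) :
    B R j i l k = B R i j k l := by
  unfold B
  rw [Finset.sum_comm]
  refine Finset.sum_congr rfl fun p _ => Finset.sum_congr rfl fun q _ => ?_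
  rw [← hR.pair j q i p, ← hR.pair l q k p]

lemma B_pair {n : ℕ} (R : Tensor n) (i j k l : Fin n) :
    B R k l i j = B R i j k l := by
  unfold B
  refine Finset.sum_congr rfl fun p _ => Finset.sum_congr rfl fun q _ => ?_
  ring

lemma isCurv_Q {n : ℕ} {R : Tensor n} (hR : IsCurv R) : IsCurv (Q R) := by
  constructor
  · intro i j k l
    unfold Q
    rw [B_swap hR i j l k, B_swap hR i j k l]
    have h1 : B R j l i k = B R i k j l := B_pair R i k j l
    have h2 : B R j k i l = B R i l j k := B_pair R i l j k
    rw [h1, h2]
    ring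
  · intro i j k l
    unfold Q
    ring
  · intro i j k l
    unfold Q
    have h1 : B R k l i j = B R i j k l := B_pair R i j k l
    have h2 : B R k l j i = B R i j l k := by rw [B_pair R j i k l, B_swap hR i j l k]
    have h3 : B R k j l i = B R i l j k := by
      rw [B_pair R l i k j, B_swap hR i l j k]
    have h4 : B R k i l j = B R i k j l := B_swap hR i k j l
    rw [h1, h2, h3, h4]
  · intro i j k l
    unfold Q
    -- all 12 terms
    have e1 : B R j i k l = B R i j l k := B_swap hR i j l k
    have e2 : B R j l k i = B R i k l j := by rw [B_pair R k i j l, B_swap hR i k l j]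
    have e3 : B R k i j l = B R i k l j := B_swap hR i k l j
    have e4 : B R k i l j = B R i k j l := B_swap hR i k j l
    have e5 : B R k l i j = B R i j k l := B_pair R i j k l
    have e6 : B R k j i l = B R j k l i := B_swap hR j k l i
    have e7 : B R j k i l = B R i l j k := B_pair R i l j k
    rw [e1, e2, e3, e4, e5, e6, e7]
    ring

/-- The space of algebraic curvature tensors. -/
def curvSpace (n : ℕ) : Submodule ℝ (Tensor n) where
  carrier := {R | IsCurv R}
  add_mem' := by
    rintro R S hR hS
    constructor
    · intro i j k l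
      simp only [Pi.add_apply, hR.anti₁ i j k l, hS.anti₁ i j k l]; ring
    · intro i j k l
      simp only [Pi.add_apply, hR.anti₂ i j k l, hS.anti₂ i j k l]; ring
    · intro i j k l
      simp only [Pi.add_apply, hR.pair i j k l, hS.pair i j k l]
    · intro i j k l
      have h1 := hR.bianchi i j k l
      have h2 := hS.bianchi i j k l
      simp only [Pi.add_apply]; linarith
  zero_mem' := by
    constructor <;> intros <;> simp
  smul_mem' := by
    rintro c R hR
    constructor
    · intro i j k l
      simp only [Pi.smul_apply, smul_eq_mul, hR.anti₁ i j k l]; ring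
    · intro i j k l
      simp only [Pi.smul_apply, smul_eq_mul, hR.anti₂ i j k l]; ring
    · intro i j k l
      simp only [Pi.smul_apply, smul_eq_mul, hR.pair i j k l]
    · intro i j k l
      have h1 := hR.bianchi i j k l
      simp only [Pi.smul_apply, smul_eq_mul]
      linear_combination c * h1

end Pool.Agent.Helper14_RF
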