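import Mathlib
import Pool.Agent.Helper14_RF.Defs

set_option autoImplicit false

namespace Pool.Agent.Helper14_RF

section

variable {n : ℕ}

/-- Kronecker delta. -/
def dl (a b : Fin n) : ℝ := if a = b then 1 else 0

lemma dl_comm (a b : Fin n) : dl a b = dl b a := by unfold dl; simp only [eq_comm]

lemma dl_self (a : Fin n) : dl a a = 1 := by simp [dl]

lemma dl_ne {a b : Fin n} (h : a ≠ b) : dl a b = 0 := by simp [dl, h]

/-- Projection onto the first two coordinates. -/
def pr (x y : Fin n) (a b : Fin n) : ℝ := dl a x * dl b x + dl a y * dl b y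

/-- The two-form `x ∧ y`. -/
def of (x y : Fin n) (a b : Fin n) : ℝ := dl a x * dl b y - dl a y * dl b x

/-- Kulkarni-Nomizu type product. -/
def kn (h k : Fin n → Fin n → ℝ) (a b c d : Fin n) : ℝ :=
  h a c * k b d + h b d * k a c - h a d * k b c - h b c * k a d

/-- The product of two two-forms. -/
def om (u v : Fin n → Fin n → ℝ) (a b c d : Fin n) : ℝ :=
  2 * u a b * v c d + 2 * v a b * u c d + u a c * v b d + v a c * u b d
    - u a d * v b c - v a d * u b c

/-- The example. -/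
def R0 (x y z w : Fin n) : Tensor n := fun a b c d =>
  -(3 * kn dl (pr x y) a b c d + 3 * kn (pr x y) (pr x y) a b c d + om (of x y) (of z w) a b c d)

lemma pr_comm (x y a b : Fin n) : pr x y a b = pr x y b a := by unfold pr; ring

lemma of_anti (x y a b : Fin n) : of x y a b = - of x y b a := by unfold of; ring

lemma isCurv_R0 (x y z w : Fin n) : IsCurv (R0 x y z w) := by
  constructor
  · intro i j k l
    unfold R0 kn om
    rw [dl_comm j k, dl_comm i l, dl_comm i k, dl_comm j l, pr_comm x y j k, pr_comm x y i l,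
      pr_comm x y i k, pr_comm x y j l, of_anti x y j i, of_anti z w j i, of_anti x y j k,
      of_anti z w j k, of_anti x y i k,
      of_anti z w i k, of_anti x y i l, of_anti z w i l, of_anti x y j l, of_anti z w j l]
    ring
  · intro i j k l
    unfold R0 kn om
    rw [of_anti x y l k, of_anti z w l k]
    ring
  · intro i j k l
    unfold R0 kn om
    rw [dl_comm k i, dl_comm l j, dl_comm k j, dl_comm l i, pr_comm x y k i, pr_comm x y l j,
      pr_comm x y k j, pr_comm x y l i, of_anti x y k i, of_anti z w k i, of_anti x y l j,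
      of_anti z w l j, of_anti x y k j, of_anti z w k j, of_anti x y l i, of_anti z w l i]
    ring
  · intro i j k l
    unfold R0 kn om
    rw [dl_comm j i, dl_comm k j, dl_comm k i, pr_comm x y j i, pr_comm x y k j, pr_comm x y k i,
      of_anti x y j i, of_anti z w j i, of_anti x y k j, of_anti z w k j, of_anti x y k i,
      of_anti z w k i]
    ring

lemma sum_dl_left (x : Fin n) (f : Fin n → ℝ) : ∑ a, dl a x * f a = f x := by
  rw [Finset.sum_eq_single x]
  · simp [dl]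
  · intro b _ hb
    simp [dl, hb]
  · intro h
    exact absurd (Finset.mem_univ _) h

lemma sum_dl_right (x : Fin n) (f : Fin n → ℝ) : ∑ a, dl x a * f a = f x := by
  simp only [dl_comm x, sum_dl_left]

lemma sum_pr (x y : Fin n) (X : Fin n → Fin n → ℝ) :
    ∑ a, ∑ b, pr x y a b * X a b = X x x + X y y := by
  simp only [pr, add_mul, Finset.sum_add_distrib, mul_assoc]
  simp only [← Finset.mul_sum, sum_dl_left]

lemma sum_of (x y : Fin n) (X : Fin n → Fin n → ℝ) :
    ∑ a, ∑ b, of x y a b * X a b = X x y - X y x := by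
  simp only [of, sub_mul, Finset.sum_sub_distrib, mul_assoc]
  simp only [← Finset.mul_sum, sum_dl_left]

lemma sum_dl2 (X : Fin n → Fin n → ℝ) :
    ∑ a, ∑ b, dl a b * X a b = ∑ a, X a a := by
  simp only [sum_dl_right]

lemma sum3_rev (F : Fin n → Fin n → Fin n → ℝ) :
    ∑ j, ∑ p, ∑ q, F j p q = ∑ q, ∑ p, ∑ j, F j p q := by
  rw [Finset.sum_comm]
  have h : ∀ p, ∑ j, ∑ q, F j p q = ∑ q, ∑ j, F j p q := fun p => Finset.sum_comm
  simp only [h]
  rw [Finset.sum_comm]

/-- Reordering of a fourfold sum. -/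
lemma sum4_a (h k f : Fin n → Fin n → ℝ) :
    ∑ i, ∑ j, ∑ p, ∑ q, (h i j * k p q) * f p q * f i j
      = (∑ i, ∑ j, h i j * f i j) * (∑ p, ∑ q, k p q * f p q) := by
  rw [Finset.sum_mul]
  refine Finset.sum_congr rfl fun i _ => ?_
  rw [Finset.sum_mul]
  refine Finset.sum_congr rfl fun j _ => ?_
  rw [Finset.mul_sum]
  refine Finset.sum_congr rfl fun p _ => ?_
  rw [Finset.mul_sum]
  refine Finset.sum_congr rfl fun q _ => ?_
  ring

lemma sum4_b (h k f : Fin n → Fin n → ℝ) :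
    ∑ i, ∑ j, ∑ p, ∑ q, (h i q * k p j) * f p q * f i j
      = ∑ i, ∑ q, h i q * ∑ p, ∑ j, k p j * (f p q * f i j) := by
  refine Finset.sum_congr rfl fun i _ => ?_
  rw [sum3_rev]
  refine Finset.sum_congr rfl fun q _ => ?_
  rw [Finset.mul_sum]
  refine Finset.sum_congr rfl fun p _ => ?_
  rw [Finset.mul_sum]
  refine Finset.sum_congr rfl fun j _ => ?_
  ring

lemma sum4_c (h k f : Fin n → Fin n → ℝ) :
    ∑ i, ∑ j, ∑ p, ∑ q, (h i p * k j q) * f p q * f i j
      = ∑ i, ∑ p, h i p * ∑ j, ∑ q, k j q * (f p q * f i j) := by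
  refine Finset.sum_congr rfl fun i _ => ?_
  rw [Finset.sum_comm]
  refine Finset.sum_congr rfl fun p _ => ?_
  rw [Finset.mul_sum]
  refine Finset.sum_congr rfl fun j _ => ?_
  rw [Finset.mul_sum]
  refine Finset.sum_congr rfl fun q _ => ?_
  ring

lemma qform_R0_aux (x y z w : Fin n) (φ : Fin n → Fin n → ℝ) (hs : ∀ a b, φ a b = φ b a)
    (htr' : ∑ i, φ i i = 0) :
    (∑ i, ∑ j, ∑ k, ∑ l, R0 x y z w i k j l * φ k l * φ i j)
      = 6 * (∑ j, φ x j ^ 2 + ∑ j, φ y j ^ 2)
      + 12 * (φ x y ^ 2 - φ x x * φ y y) - 12 * (φ x z * φ y w - φ x w * φ y z) := by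
  set g : Fin n → Fin n → ℝ := dl
  set P : Fin n → Fin n → ℝ := pr x y
  set u : Fin n → Fin n → ℝ := of x y
  set v : Fin n → Fin n → ℝ := of z w
  have expand : (∑ i, ∑ j, ∑ k, ∑ l, R0 x y z w i k j l * φ k l * φ i j) =
      -(3 * ((∑ i, ∑ j, ∑ p, ∑ q, (g i j * P p q) * φ p q * φ i j)
          + (∑ i, ∑ j, ∑ p, ∑ q, (P i j * g p q) * φ p q * φ i j)
          - (∑ i, ∑ j, ∑ p, ∑ q, (g i q * P p j) * φ p q * φ i j)
          - (∑ i, ∑ j, ∑ p, ∑ q, (P i q * g p j) * φ p q * φ i j))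
        + 3 * (2 * (∑ i, ∑ j, ∑ p, ∑ q, (P i j * P p q) * φ p q * φ i j)
          - 2 * (∑ i, ∑ j, ∑ p, ∑ q, (P i q * P p j) * φ p q * φ i j))
        + (2 * (∑ i, ∑ j, ∑ p, ∑ q, (u i p * v j q) * φ p q * φ i j)
          + 2 * (∑ i, ∑ j, ∑ p, ∑ q, (v i p * u j q) * φ p q * φ i j)
          + (∑ i, ∑ j, ∑ p, ∑ q, (u i j * v p q) * φ p q * φ i j)
          + (∑ i, ∑ j, ∑ p, ∑ q, (v i j * u p q) * φ p q * φ i j)
          - (∑ i, ∑ j, ∑ p, ∑ q, (u i q * v p j) * φ p q * φ i j)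
          - (∑ i, ∑ j, ∑ p, ∑ q, (v i q * u p j) * φ p q * φ i j))) := by
    unfold R0 kn om
    simp only [Finset.mul_sum, ← Finset.sum_add_distrib, ← Finset.sum_sub_distrib,
      ← Finset.sum_neg_distrib]
    refine Finset.sum_congr rfl fun i _ => Finset.sum_congr rfl fun j _ =>
      Finset.sum_congr rfl fun p _ => Finset.sum_congr rfl fun q _ => ?_
    simp only [g, P, u, v]
    ring
  rw [expand]
  simp only [sum4_a, sum4_b, sum4_c]
  simp only [g, P, u, v, sum_pr, sum_of, sum_dl2, htr', sum_dl_left, sum_dl_right]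
  have e1 : ∑ a, (φ x a * φ a x + φ y a * φ a y) = ∑ j, φ x j ^ 2 + ∑ j, φ y j ^ 2 := by
    rw [← Finset.sum_add_distrib]
    refine Finset.sum_congr rfl fun a _ => ?_
    rw [hs a x, hs a y]
    ring
  have e2 : ∑ p, φ p x * φ x p + ∑ p, φ p y * φ y p = ∑ j, φ x j ^ 2 + ∑ j, φ y j ^ 2 := by
    rw [← Finset.sum_add_distrib, ← Finset.sum_add_distrib]
    refine Finset.sum_congr rfl fun a _ => ?_
    rw [hs a x, hs a y]
    ring
  rw [e1, e2, hs y x, hs w z, hs z x, hs z y, hs w x, hs w y]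
  ring

lemma qform_R0 (x y z w : Fin n) (φ : Matrix (Fin n) (Fin n) ℝ) (hφ : φ.IsSymm)
    (htr : φ.trace = 0) :
    qform (R0 x y z w) φ = 6 * (∑ j, φ x j ^ 2 + ∑ j, φ y j ^ 2)
      + 12 * (φ x y ^ 2 - φ x x * φ y y) - 12 * (φ x z * φ y w - φ x w * φ y z) :=
  qform_R0_aux x y z w (fun a b => φ a b) (fun a b => (hφ.apply b a)) htr

end

end Pool.Agent.Helper14_RF
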