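import Mathlib
import Pool.Agent.Helper14_RF.Example

set_option autoImplicit false
set_option linter.unusedSimpArgs false
set_option linter.unusedVariables false

namespace Pool.Agent.Helper14_RF

section

variable {n : ℕ}

lemma nonneg_R0 {x y z w : Fin n} (hxy : x ≠ y) (hxz : x ≠ z) (hxw : x ≠ w) (hyz : y ≠ z)
    (hyw : y ≠ w) (hzw : z ≠ w) : NonnegSecondKind (R0 x y z w) := by
  intro φ hφ htr
  rw [qform_R0 x y z w φ hφ htr]
  have h4 : ∀ a : Fin n, φ a x ^ 2 + φ a y ^ 2 + φ a z ^ 2 + φ a w ^ 2 ≤ ∑ j, φ a j ^ 2 := by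
    intro a
    have h1 : ∑ j ∈ ({x, y, z, w} : Finset (Fin n)), φ a j ^ 2 ≤ ∑ j, φ a j ^ 2 :=
      Finset.sum_le_sum_of_subset_of_nonneg (Finset.subset_univ _) (fun _ _ _ => sq_nonneg _)
    have h2 : ∑ j ∈ ({x, y, z, w} : Finset (Fin n)), φ a j ^ 2
        = φ a x ^ 2 + φ a y ^ 2 + φ a z ^ 2 + φ a w ^ 2 := by
      rw [Finset.sum_insert, Finset.sum_insert, Finset.sum_insert, Finset.sum_singleton]
      · ring
      · simpa using hzw
      · simp [hyz, hyw]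
      · simp [hxy, hxz, hxw]
    linarith
  have hx := h4 x
  have hy := h4 y
  have hs : φ y x = φ x y := hφ.apply x y
  rw [hs] at hy
  nlinarith [sq_nonneg (φ x x - φ y y), sq_nonneg (φ x y), sq_nonneg (φ x z - φ y w),
    sq_nonneg (φ x w + φ y z)]

lemma sum_dd (a b : Fin n) (F : Fin n → Fin n → ℝ) :
    ∑ p, ∑ q, (dl p a * dl q b) * F p q = F a b := by
  simp only [mul_assoc, ← Finset.mul_sum, sum_dl_left]

lemma slice_xy {x y z w : Fin n} (hxy : x ≠ y) (hxz : x ≠ z) (hxw : x ≠ w) (hyz : y ≠ z)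
    (hyw : y ≠ w) (hzw : z ≠ w) (p q : Fin n) :
    R0 x y z w x p y q = 12 * (dl p y * dl q x) - dl p z * dl q w + dl p w * dl q z := by
  unfold R0 kn om pr of
  simp only [dl_self, dl_ne hxy, dl_ne hxy.symm, dl_ne hxz, dl_ne hxz.symm, dl_ne hxw,
    dl_ne hxw.symm, dl_ne hyz, dl_ne hyz.symm, dl_ne hyw, dl_ne hyw.symm, dl_ne hzw,
    dl_ne hzw.symm, dl_comm x p, dl_comm x q, dl_comm y q, dl_comm y p]
  ring

lemma slice_zw {x y z w : Fin n} (hxy : x ≠ y) (hxz : x ≠ z) (hxw : x ≠ w) (hyz : y ≠ z)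
    (hyw : y ≠ w) (hzw : z ≠ w) (p q : Fin n) :
    R0 x y z w z p w q = - (dl p x * dl q y) + dl p y * dl q x := by
  unfold R0 kn om pr of
  simp only [dl_self, dl_ne hxy, dl_ne hxy.symm, dl_ne hxz, dl_ne hxz.symm, dl_ne hxw,
    dl_ne hxw.symm, dl_ne hyz, dl_ne hyz.symm, dl_ne hyw, dl_ne hyw.symm, dl_ne hzw,
    dl_ne hzw.symm, dl_comm z p, dl_comm z q, dl_comm w q, dl_comm w p]
  ring

lemma slice_xz {x y z w : Fin n} (hxy : x ≠ y) (hxz : x ≠ z) (hxw : x ≠ w) (hyz : y ≠ z)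
    (hyw : y ≠ w) (hzw : z ≠ w) (p q : Fin n) :
    R0 x y z w x p z q = 3 * (dl p z * dl q x) - 2 * (dl p y * dl q w) - dl p w * dl q y := by
  unfold R0 kn om pr of
  simp only [dl_self, dl_ne hxy, dl_ne hxy.symm, dl_ne hxz, dl_ne hxz.symm, dl_ne hxw,
    dl_ne hxw.symm, dl_ne hyz, dl_ne hyz.symm, dl_ne hyw, dl_ne hyw.symm, dl_ne hzw,
    dl_ne hzw.symm, dl_comm x p, dl_comm x q, dl_comm z q, dl_comm z p]
  ring

lemma slice_xw {x y z w : Fin n} (hxy : x ≠ y) (hxz : x ≠ z) (hxw : x ≠ w) (hyz : y ≠ z)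
    (hyw : y ≠ w) (hzw : z ≠ w) (p q : Fin n) :
    R0 x y z w x p w q = 3 * (dl p w * dl q x) + 2 * (dl p y * dl q z) + dl p z * dl q y := by
  unfold R0 kn om pr of
  simp only [dl_self, dl_ne hxy, dl_ne hxy.symm, dl_ne hxz, dl_ne hxz.symm, dl_ne hxw,
    dl_ne hxw.symm, dl_ne hyz, dl_ne hyz.symm, dl_ne hyw, dl_ne hyw.symm, dl_ne hzw,
    dl_ne hzw.symm, dl_comm x p, dl_comm x q, dl_comm w q, dl_comm w p]
  ring

lemma slice_yz {x y z w : Fin n} (hxy : x ≠ y) (hxz : x ≠ z) (hxw : x ≠ w) (hyz : y ≠ z)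
    (hyw : y ≠ w) (hzw : z ≠ w) (p q : Fin n) :
    R0 x y z w y p z q = 3 * (dl p z * dl q y) + 2 * (dl p x * dl q w) + dl p w * dl q x := by
  unfold R0 kn om pr of
  simp only [dl_self, dl_ne hxy, dl_ne hxy.symm, dl_ne hxz, dl_ne hxz.symm, dl_ne hxw,
    dl_ne hxw.symm, dl_ne hyz, dl_ne hyz.symm, dl_ne hyw, dl_ne hyw.symm, dl_ne hzw,
    dl_ne hzw.symm, dl_comm y p, dl_comm y q, dl_comm z q, dl_comm z p]
  ring

lemma slice_yw {x y z w : Fin n} (hxy : x ≠ y) (hxz : x ≠ z) (hxw : x ≠ w) (hyz : y ≠ z)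
    (hyw : y ≠ w) (hzw : z ≠ w) (p q : Fin n) :
    R0 x y z w y p w q = 3 * (dl p w * dl q y) - 2 * (dl p x * dl q z) - dl p z * dl q x := by
  unfold R0 kn om pr of
  simp only [dl_self, dl_ne hxy, dl_ne hxy.symm, dl_ne hxz, dl_ne hxz.symm, dl_ne hxw,
    dl_ne hxw.symm, dl_ne hyz, dl_ne hyz.symm, dl_ne hyw, dl_ne hyw.symm, dl_ne hzw,
    dl_ne hzw.symm, dl_comm y p, dl_comm y q, dl_comm w q, dl_comm w p]
  ring

lemma slice_xx {x y z w : Fin n} (hxy : x ≠ y) (hxz : x ≠ z) (hxw : x ≠ w) (hyz : y ≠ z)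
    (hyw : y ≠ w) (hzw : z ≠ w) (p q : Fin n) :
    R0 x y z w x p x q = -3 * dl p q + 3 * (dl p x * dl q x) - 9 * (dl p y * dl q y) := by
  unfold R0 kn om pr of
  simp only [dl_self, dl_ne hxy, dl_ne hxy.symm, dl_ne hxz, dl_ne hxz.symm, dl_ne hxw,
    dl_ne hxw.symm, dl_ne hyz, dl_ne hyz.symm, dl_ne hyw, dl_ne hyw.symm, dl_ne hzw,
    dl_ne hzw.symm, dl_comm x p, dl_comm x q]
  ring

lemma slice_yy {x y z w : Fin n} (hxy : x ≠ y) (hxz : x ≠ z) (hxw : x ≠ w) (hyz : y ≠ z)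
    (hyw : y ≠ w) (hzw : z ≠ w) (p q : Fin n) :
    R0 x y z w y p y q = -3 * dl p q + 3 * (dl p y * dl q y) - 9 * (dl p x * dl q x) := by
  unfold R0 kn om pr of
  simp only [dl_self, dl_ne hxy, dl_ne hxy.symm, dl_ne hxz, dl_ne hxz.symm, dl_ne hxw,
    dl_ne hxw.symm, dl_ne hyz, dl_ne hyz.symm, dl_ne hyw, dl_ne hyw.symm, dl_ne hzw,
    dl_ne hzw.symm, dl_comm y p, dl_comm y q]
  ring

lemma slice_zz {x y z w : Fin n} (hxy : x ≠ y) (hxz : x ≠ z) (hxw : x ≠ w) (hyz : y ≠ z)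
    (hyw : y ≠ w) (hzw : z ≠ w) (p q : Fin n) :
    R0 x y z w z p z q = -3 * (dl p x * dl q x) - 3 * (dl p y * dl q y) := by
  unfold R0 kn om pr of
  simp only [dl_self, dl_ne hxy, dl_ne hxy.symm, dl_ne hxz, dl_ne hxz.symm, dl_ne hxw,
    dl_ne hxw.symm, dl_ne hyz, dl_ne hyz.symm, dl_ne hyw, dl_ne hyw.symm, dl_ne hzw,
    dl_ne hzw.symm, dl_comm z p, dl_comm z q]
  ring

lemma slice_ww {x y z w : Fin n} (hxy : x ≠ y) (hxz : x ≠ z) (hxw : x ≠ w) (hyz : y ≠ z)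
    (hyw : y ≠ w) (hzw : z ≠ w) (p q : Fin n) :
    R0 x y z w w p w q = -3 * (dl p x * dl q x) - 3 * (dl p y * dl q y) := by
  unfold R0 kn om pr of
  simp only [dl_self, dl_ne hxy, dl_ne hxy.symm, dl_ne hxz, dl_ne hxz.symm, dl_ne hxw,
    dl_ne hxw.symm, dl_ne hyz, dl_ne hyz.symm, dl_ne hyw, dl_ne hyw.symm, dl_ne hzw,
    dl_ne hzw.symm, dl_comm w p, dl_comm w q]
  ring

/-- Sum of a product of combinations of elementary matrices. -/
lemma sum_comb (α β γ δ : ℝ) (a a' b b' c c' : Fin n) (F : Fin n → Fin n → ℝ) :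
    ∑ p, ∑ q, (α * dl p q + β * (dl p a * dl q a') + γ * (dl p b * dl q b')
      + δ * (dl p c * dl q c')) * F p q
      = α * ∑ p, F p p + β * F a a' + γ * F b b' + δ * F c c' := by
  have h : ∀ p q, (α * dl p q + β * (dl p a * dl q a') + γ * (dl p b * dl q b')
      + δ * (dl p c * dl q c')) * F p q
      = dl p q * (α * F p q) + (dl p a * dl q a') * (β * F p q) + (dl p b * dl q b') * (γ * F p q)
        + (dl p c * dl q c') * (δ * F p q) := by
    intro p q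
    ring
  simp only [h, Finset.sum_add_distrib]
  rw [sum_dl2, sum_dd a a' (fun p q => β * F p q), sum_dd b b' (fun p q => γ * F p q),
    sum_dd c c' (fun p q => δ * F p q), Finset.mul_sum]


lemma B_xyxy {x y z w : Fin n} (hxy : x ≠ y) (hxz : x ≠ z) (hxw : x ≠ w) (hyz : y ≠ z)
    (hyw : y ≠ w) (hzw : z ≠ w) :
    B (R0 x y z w) x y x y = (0) * (∑ p, R0 x y z w x p y p) + (12) * R0 x y z w x y y x + (-1) * R0 x y z w x z y w
      + (1) * R0 x y z w x w y z := by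
  unfold B
  rw [← sum_comb (0) (12) (-1) (1) y x z w w z
    (fun p q => R0 x y z w x p y q)]
  refine Finset.sum_congr rfl fun p _ => Finset.sum_congr rfl fun q _ => ?_
  rw [slice_xy hxy hxz hxw hyz hyw hzw]
  ring

lemma B_xyyx {x y z w : Fin n} (hxy : x ≠ y) (hxz : x ≠ z) (hxw : x ≠ w) (hyz : y ≠ z)
    (hyw : y ≠ w) (hzw : z ≠ w) :
    B (R0 x y z w) x y y x = (0) * (∑ p, R0 x y z w y p x p) + (12) * R0 x y z w y y x x + (-1) * R0 x y z w y z x w
      + (1) * R0 x y z w y w x z := by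
  unfold B
  rw [← sum_comb (0) (12) (-1) (1) y x z w w z
    (fun p q => R0 x y z w y p x q)]
  refine Finset.sum_congr rfl fun p _ => Finset.sum_congr rfl fun q _ => ?_
  rw [slice_xy hxy hxz hxw hyz hyw hzw]
  ring

lemma B_zwzw {x y z w : Fin n} (hxy : x ≠ y) (hxz : x ≠ z) (hxw : x ≠ w) (hyz : y ≠ z)
    (hyw : y ≠ w) (hzw : z ≠ w) :
    B (R0 x y z w) z w z w = (0) * (∑ p, R0 x y z w z p w p) + (-1) * R0 x y z w z x w y + (1) * R0 x y z w z y w x
      + (0) * R0 x y z w z x w x := by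
  unfold B
  rw [← sum_comb (0) (-1) (1) (0) x y y x x x
    (fun p q => R0 x y z w z p w q)]
  refine Finset.sum_congr rfl fun p _ => Finset.sum_congr rfl fun q _ => ?_
  rw [slice_zw hxy hxz hxw hyz hyw hzw]
  ring

lemma B_zwwz {x y z w : Fin n} (hxy : x ≠ y) (hxz : x ≠ z) (hxw : x ≠ w) (hyz : y ≠ z)
    (hyw : y ≠ w) (hzw : z ≠ w) :
    B (R0 x y z w) z w w z = (0) * (∑ p, R0 x y z w w p z p) + (-1) * R0 x y z w w x z y + (1) * R0 x y z w w y z x
      + (0) * R0 x y z w w x z x := by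
  unfold B
  rw [← sum_comb (0) (-1) (1) (0) x y y x x x
    (fun p q => R0 x y z w w p z q)]
  refine Finset.sum_congr rfl fun p _ => Finset.sum_congr rfl fun q _ => ?_
  rw [slice_zw hxy hxz hxw hyz hyw hzw]
  ring

lemma B_xzxz {x y z w : Fin n} (hxy : x ≠ y) (hxz : x ≠ z) (hxw : x ≠ w) (hyz : y ≠ z)
    (hyw : y ≠ w) (hzw : z ≠ w) :
    B (R0 x y z w) x z x z = (0) * (∑ p, R0 x y z w x p z p) + (3) * R0 x y z w x z z x + (-2) * R0 x y z w x y z w
      + (-1) * R0 x y z w x w z y := by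
  unfold B
  rw [← sum_comb (0) (3) (-2) (-1) z x y w w y
    (fun p q => R0 x y z w x p z q)]
  refine Finset.sum_congr rfl fun p _ => Finset.sum_congr rfl fun q _ => ?_
  rw [slice_xz hxy hxz hxw hyz hyw hzw]
  ring

lemma B_xzzx {x y z w : Fin n} (hxy : x ≠ y) (hxz : x ≠ z) (hxw : x ≠ w) (hyz : y ≠ z)
    (hyw : y ≠ w) (hzw : z ≠ w) :
    B (R0 x y z w) x z z x = (0) * (∑ p, R0 x y z w z p x p) + (3) * R0 x y z w z z x x + (-2) * R0 x y z w z y x w
      + (-1) * R0 x y z w z w x y := by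
  unfold B
  rw [← sum_comb (0) (3) (-2) (-1) z x y w w y
    (fun p q => R0 x y z w z p x q)]
  refine Finset.sum_congr rfl fun p _ => Finset.sum_congr rfl fun q _ => ?_
  rw [slice_xz hxy hxz hxw hyz hyw hzw]
  ring

lemma B_xwxw {x y z w : Fin n} (hxy : x ≠ y) (hxz : x ≠ z) (hxw : x ≠ w) (hyz : y ≠ z)
    (hyw : y ≠ w) (hzw : z ≠ w) :
    B (R0 x y z w) x w x w = (0) * (∑ p, R0 x y z w x p w p) + (3) * R0 x y z w x w w x + (2) * R0 x y z w x y w z
      + (1) * R0 x y z w x z w y := by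
  unfold B
  rw [← sum_comb (0) (3) (2) (1) w x y z z y
    (fun p q => R0 x y z w x p w q)]
  refine Finset.sum_congr rfl fun p _ => Finset.sum_congr rfl fun q _ => ?_
  rw [slice_xw hxy hxz hxw hyz hyw hzw]
  ring

lemma B_xwwx {x y z w : Fin n} (hxy : x ≠ y) (hxz : x ≠ z) (hxw : x ≠ w) (hyz : y ≠ z)
    (hyw : y ≠ w) (hzw : z ≠ w) :
    B (R0 x y z w) x w w x = (0) * (∑ p, R0 x y z w w p x p) + (3) * R0 x y z w w w x x + (2) * R0 x y z w w y x z
      + (1) * R0 x y z w w z x y := by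
  unfold B
  rw [← sum_comb (0) (3) (2) (1) w x y z z y
    (fun p q => R0 x y z w w p x q)]
  refine Finset.sum_congr rfl fun p _ => Finset.sum_congr rfl fun q _ => ?_
  rw [slice_xw hxy hxz hxw hyz hyw hzw]
  ring

lemma B_yzyz {x y z w : Fin n} (hxy : x ≠ y) (hxz : x ≠ z) (hxw : x ≠ w) (hyz : y ≠ z)
    (hyw : y ≠ w) (hzw : z ≠ w) :
    B (R0 x y z w) y z y z = (0) * (∑ p, R0 x y z w y p z p) + (3) * R0 x y z w y z z y + (2) * R0 x y z w y x z w
      + (1) * R0 x y z w y w z x := by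
  unfold B
  rw [← sum_comb (0) (3) (2) (1) z y x w w x
    (fun p q => R0 x y z w y p z q)]
  refine Finset.sum_congr rfl fun p _ => Finset.sum_congr rfl fun q _ => ?_
  rw [slice_yz hxy hxz hxw hyz hyw hzw]
  ring

lemma B_yzzy {x y z w : Fin n} (hxy : x ≠ y) (hxz : x ≠ z) (hxw : x ≠ w) (hyz : y ≠ z)
    (hyw : y ≠ w) (hzw : z ≠ w) :
    B (R0 x y z w) y z z y = (0) * (∑ p, R0 x y z w z p y p) + (3) * R0 x y z w z z y y + (2) * R0 x y z w z x y w
      + (1) * R0 x y z w z w y x := by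
  unfold B
  rw [← sum_comb (0) (3) (2) (1) z y x w w x
    (fun p q => R0 x y z w z p y q)]
  refine Finset.sum_congr rfl fun p _ => Finset.sum_congr rfl fun q _ => ?_
  rw [slice_yz hxy hxz hxw hyz hyw hzw]
  ring

lemma B_ywyw {x y z w : Fin n} (hxy : x ≠ y) (hxz : x ≠ z) (hxw : x ≠ w) (hyz : y ≠ z)
    (hyw : y ≠ w) (hzw : z ≠ w) :
    B (R0 x y z w) y w y w = (0) * (∑ p, R0 x y z w y p w p) + (3) * R0 x y z w y w w y + (-2) * R0 x y z w y x w z
      + (-1) * R0 x y z w y z w x := by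
  unfold B
  rw [← sum_comb (0) (3) (-2) (-1) w y x z z x
    (fun p q => R0 x y z w y p w q)]
  refine Finset.sum_congr rfl fun p _ => Finset.sum_congr rfl fun q _ => ?_
  rw [slice_yw hxy hxz hxw hyz hyw hzw]
  ring

lemma B_ywwy {x y z w : Fin n} (hxy : x ≠ y) (hxz : x ≠ z) (hxw : x ≠ w) (hyz : y ≠ z)
    (hyw : y ≠ w) (hzw : z ≠ w) :
    B (R0 x y z w) y w w y = (0) * (∑ p, R0 x y z w w p y p) + (3) * R0 x y z w w w y y + (-2) * R0 x y z w w x y z
      + (-1) * R0 x y z w w z y x := by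
  unfold B
  rw [← sum_comb (0) (3) (-2) (-1) w y x z z x
    (fun p q => R0 x y z w w p y q)]
  refine Finset.sum_congr rfl fun p _ => Finset.sum_congr rfl fun q _ => ?_
  rw [slice_yw hxy hxz hxw hyz hyw hzw]
  ring

lemma B_xxyy {x y z w : Fin n} (hxy : x ≠ y) (hxz : x ≠ z) (hxw : x ≠ w) (hyz : y ≠ z)
    (hyw : y ≠ w) (hzw : z ≠ w) :
    B (R0 x y z w) x x y y = (-3) * (∑ p, R0 x y z w y p y p) + (3) * R0 x y z w y x y x + (-9) * R0 x y z w y y y y
      + (0) * R0 x y z w y x y x := by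
  unfold B
  rw [← sum_comb (-3) (3) (-9) (0) x x y y x x
    (fun p q => R0 x y z w y p y q)]
  refine Finset.sum_congr rfl fun p _ => Finset.sum_congr rfl fun q _ => ?_
  rw [slice_xx hxy hxz hxw hyz hyw hzw]
  ring

lemma B_zzww {x y z w : Fin n} (hxy : x ≠ y) (hxz : x ≠ z) (hxw : x ≠ w) (hyz : y ≠ z)
    (hyw : y ≠ w) (hzw : z ≠ w) :
    B (R0 x y z w) z z w w = (0) * (∑ p, R0 x y z w w p w p) + (-3) * R0 x y z w w x w x + (-3) * R0 x y z w w y w y
      + (0) * R0 x y z w w x w x := by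
  unfold B
  rw [← sum_comb (0) (-3) (-3) (0) x x y y x x
    (fun p q => R0 x y z w w p w q)]
  refine Finset.sum_congr rfl fun p _ => Finset.sum_congr rfl fun q _ => ?_
  rw [slice_zz hxy hxz hxw hyz hyw hzw]
  ring

lemma B_xxzz {x y z w : Fin n} (hxy : x ≠ y) (hxz : x ≠ z) (hxw : x ≠ w) (hyz : y ≠ z)
    (hyw : y ≠ w) (hzw : z ≠ w) :
    B (R0 x y z w) x x z z = (-3) * (∑ p, R0 x y z w z p z p) + (3) * R0 x y z w z x z x + (-9) * R0 x y z w z y z y
      + (0) * R0 x y z w z x z x := by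
  unfold B
  rw [← sum_comb (-3) (3) (-9) (0) x x y y x x
    (fun p q => R0 x y z w z p z q)]
  refine Finset.sum_congr rfl fun p _ => Finset.sum_congr rfl fun q _ => ?_
  rw [slice_xx hxy hxz hxw hyz hyw hzw]
  ring

lemma B_xxww {x y z w : Fin n} (hxy : x ≠ y) (hxz : x ≠ z) (hxw : x ≠ w) (hyz : y ≠ z)
    (hyw : y ≠ w) (hzw : z ≠ w) :
    B (R0 x y z w) x x w w = (-3) * (∑ p, R0 x y z w w p w p) + (3) * R0 x y z w w x w x + (-9) * R0 x y z w w y w y
      + (0) * R0 x y z w w x w x := by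
  unfold B
  rw [← sum_comb (-3) (3) (-9) (0) x x y y x x
    (fun p q => R0 x y z w w p w q)]
  refine Finset.sum_congr rfl fun p _ => Finset.sum_congr rfl fun q _ => ?_
  rw [slice_xx hxy hxz hxw hyz hyw hzw]
  ring

lemma B_yyzz {x y z w : Fin n} (hxy : x ≠ y) (hxz : x ≠ z) (hxw : x ≠ w) (hyz : y ≠ z)
    (hyw : y ≠ w) (hzw : z ≠ w) :
    B (R0 x y z w) y y z z = (-3) * (∑ p, R0 x y z w z p z p) + (3) * R0 x y z w z y z y + (-9) * R0 x y z w z x z x
      + (0) * R0 x y z w z x z x := by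
  unfold B
  rw [← sum_comb (-3) (3) (-9) (0) y y x x x x
    (fun p q => R0 x y z w z p z q)]
  refine Finset.sum_congr rfl fun p _ => Finset.sum_congr rfl fun q _ => ?_
  rw [slice_yy hxy hxz hxw hyz hyw hzw]
  ring

lemma B_yyww {x y z w : Fin n} (hxy : x ≠ y) (hxz : x ≠ z) (hxw : x ≠ w) (hyz : y ≠ z)
    (hyw : y ≠ w) (hzw : z ≠ w) :
    B (R0 x y z w) y y w w = (-3) * (∑ p, R0 x y z w w p w p) + (3) * R0 x y z w w y w y + (-9) * R0 x y z w w x w x
      + (0) * R0 x y z w w x w x := by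
  unfold B
  rw [← sum_comb (-3) (3) (-9) (0) y y x x x x
    (fun p q => R0 x y z w w p w q)]
  refine Finset.sum_congr rfl fun p _ => Finset.sum_congr rfl fun q _ => ?_
  rw [slice_yy hxy hxz hxw hyz hyw hzw]
  ring

lemma val {x y z w : Fin n} (hxy : x ≠ y) (hxz : x ≠ z) (hxw : x ≠ w) (hyz : y ≠ z)
    (hyw : y ≠ w) (hzw : z ≠ w) (a b c d : Fin n) :
    R0 x y z w a b c d = -(3 * kn dl (pr x y) a b c d + 3 * kn (pr x y) (pr x y) a b c d
      + om (of x y) (of z w) a b c d) := rfl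

lemma sum_one_dl : (∑ p : Fin n, dl p p) = n := by
  simp [dl]

lemma trace_yy {x y z w : Fin n} (hxy : x ≠ y) (hxz : x ≠ z) (hxw : x ≠ w) (hyz : y ≠ z)
    (hyw : y ≠ w) (hzw : z ≠ w) : ∑ p, R0 x y z w y p y p = -(3 * (n : ℝ) + 6) := by
  simp only [slice_yy hxy hxz hxw hyz hyw hzw]
  have h : ∀ p : Fin n, -3 * dl p p + 3 * (dl p y * dl p y) - 9 * (dl p x * dl p x)
      = dl p p * (-3) + dl p y * (3 * dl p y) + dl p x * (-9 * dl p x) := by
    intro p; ring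
  rw [Finset.sum_congr rfl (fun p _ => h p), Finset.sum_add_distrib, Finset.sum_add_distrib,
    sum_dl_left y (fun p => 3 * dl p y), sum_dl_left x (fun p => -9 * dl p x),
    ← Finset.sum_mul, sum_one_dl, dl_self, dl_self]
  ring

lemma Q_xy {x y z w : Fin n} (hxy : x ≠ y) (hxz : x ≠ z) (hxw : x ≠ w) (hyz : y ≠ z)
    (hyw : y ≠ w) (hzw : z ≠ w) :
    Q (R0 x y z w) x y x y = -18 * (n : ℝ) - 264 := by
  have e : Q (R0 x y z w) x y x y = -2 * (B (R0 x y z w) x y x y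
      - B (R0 x y z w) x y y x - B (R0 x y z w) x y y x
      + B (R0 x y z w) x x y y) := rfl
  rw [e, B_xyxy hxy hxz hxw hyz hyw hzw, B_xyyx hxy hxz hxw hyz hyw hzw, B_xxyy hxy hxz hxw hyz hyw hzw]
  rw [trace_yy hxy hxz hxw hyz hyw hzw]
  unfold R0 kn om pr of
  simp only [dl_self, dl_ne hxy, dl_ne hxy.symm, dl_ne hxz, dl_ne hxz.symm, dl_ne hxw,
    dl_ne hxw.symm, dl_ne hyz, dl_ne hyz.symm, dl_ne hyw, dl_ne hyw.symm, dl_ne hzw,
    dl_ne hzw.symm]
  ring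

lemma Q_zw {x y z w : Fin n} (hxy : x ≠ y) (hxz : x ≠ z) (hxw : x ≠ w) (hyz : y ≠ z)
    (hyw : y ≠ w) (hzw : z ≠ w) :
    Q (R0 x y z w) z w z w = -48 := by
  have e : Q (R0 x y z w) z w z w = -2 * (B (R0 x y z w) z w z w
      - B (R0 x y z w) z w w z - B (R0 x y z w) z w w z
      + B (R0 x y z w) z z w w) := rfl
  rw [e, B_zwzw hxy hxz hxw hyz hyw hzw, B_zwwz hxy hxz hxw hyz hyw hzw, B_zzww hxy hxz hxw hyz hyw hzw]
  unfold R0 kn om pr of
  simp only [dl_self, dl_ne hxy, dl_ne hxy.symm, dl_ne hxz, dl_ne hxz.symm, dl_ne hxw,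
    dl_ne hxw.symm, dl_ne hyz, dl_ne hyz.symm, dl_ne hyw, dl_ne hyw.symm, dl_ne hzw,
    dl_ne hzw.symm]
  ring

lemma Q_xz {x y z w : Fin n} (hxy : x ≠ y) (hxz : x ≠ z) (hxw : x ≠ w) (hyz : y ≠ z)
    (hyw : y ≠ w) (hzw : z ≠ w) :
    Q (R0 x y z w) x z x z = -84 := by
  have e : Q (R0 x y z w) x z x z = -2 * (B (R0 x y z w) x z x z
      - B (R0 x y z w) x z z x - B (R0 x y z w) x z z x
      + B (R0 x y z w) x x z z) := rfl
  rw [e, B_xzxz hxy hxz hxw hyz hyw hzw, B_xzzx hxy hxz hxw hyz hyw hzw, B_xxzz hxy hxz hxw hyz hyw hzw]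
  have ht : ∑ p, R0 x y z w z p z p = -6 := by
    simp only [slice_zz hxy hxz hxw hyz hyw hzw]
    have h : ∀ p : Fin n, -3 * (dl p x * dl p x) - 3 * (dl p y * dl p y)
      = dl p x * (-3 * dl p x) + dl p y * (-3 * dl p y) := by
      intro p; ring
    simp only [h, Finset.sum_add_distrib, sum_dl_left, dl_self]
    norm_num
  rw [ht]
  unfold R0 kn om pr of
  simp only [dl_self, dl_ne hxy, dl_ne hxy.symm, dl_ne hxz, dl_ne hxz.symm, dl_ne hxw,
    dl_ne hxw.symm, dl_ne hyz, dl_ne hyz.symm, dl_ne hyw, dl_ne hyw.symm, dl_ne hzw,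
    dl_ne hzw.symm]
  ring

lemma Q_xw {x y z w : Fin n} (hxy : x ≠ y) (hxz : x ≠ z) (hxw : x ≠ w) (hyz : y ≠ z)
    (hyw : y ≠ w) (hzw : z ≠ w) :
    Q (R0 x y z w) x w x w = -84 := by
  have e : Q (R0 x y z w) x w x w = -2 * (B (R0 x y z w) x w x w
      - B (R0 x y z w) x w w x - B (R0 x y z w) x w w x
      + B (R0 x y z w) x x w w) := rfl
  rw [e, B_xwxw hxy hxz hxw hyz hyw hzw, B_xwwx hxy hxz hxw hyz hyw hzw, B_xxww hxy hxz hxw hyz hyw hzw]
  have ht : ∑ p, R0 x y z w w p w p = -6 := by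
    simp only [slice_ww hxy hxz hxw hyz hyw hzw]
    have h : ∀ p : Fin n, -3 * (dl p x * dl p x) - 3 * (dl p y * dl p y)
      = dl p x * (-3 * dl p x) + dl p y * (-3 * dl p y) := by
      intro p; ring
    simp only [h, Finset.sum_add_distrib, sum_dl_left, dl_self]
    norm_num
  rw [ht]
  unfold R0 kn om pr of
  simp only [dl_self, dl_ne hxy, dl_ne hxy.symm, dl_ne hxz, dl_ne hxz.symm, dl_ne hxw,
    dl_ne hxw.symm, dl_ne hyz, dl_ne hyz.symm, dl_ne hyw, dl_ne hyw.symm, dl_ne hzw,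
    dl_ne hzw.symm]
  ring

lemma Q_yz {x y z w : Fin n} (hxy : x ≠ y) (hxz : x ≠ z) (hxw : x ≠ w) (hyz : y ≠ z)
    (hyw : y ≠ w) (hzw : z ≠ w) :
    Q (R0 x y z w) y z y z = -84 := by
  have e : Q (R0 x y z w) y z y z = -2 * (B (R0 x y z w) y z y z
      - B (R0 x y z w) y z z y - B (R0 x y z w) y z z y
      + B (R0 x y z w) y y z z) := rfl
  rw [e, B_yzyz hxy hxz hxw hyz hyw hzw, B_yzzy hxy hxz hxw hyz hyw hzw, B_yyzz hxy hxz hxw hyz hyw hzw]
  have ht : ∑ p, R0 x y z w z p z p = -6 := by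
    simp only [slice_zz hxy hxz hxw hyz hyw hzw]
    have h : ∀ p : Fin n, -3 * (dl p x * dl p x) - 3 * (dl p y * dl p y)
      = dl p x * (-3 * dl p x) + dl p y * (-3 * dl p y) := by
      intro p; ring
    simp only [h, Finset.sum_add_distrib, sum_dl_left, dl_self]
    norm_num
  rw [ht]
  unfold R0 kn om pr of
  simp only [dl_self, dl_ne hxy, dl_ne hxy.symm, dl_ne hxz, dl_ne hxz.symm, dl_ne hxw,
    dl_ne hxw.symm, dl_ne hyz, dl_ne hyz.symm, dl_ne hyw, dl_ne hyw.symm, dl_ne hzw,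
    dl_ne hzw.symm]
  ring

lemma Q_yw {x y z w : Fin n} (hxy : x ≠ y) (hxz : x ≠ z) (hxw : x ≠ w) (hyz : y ≠ z)
    (hyw : y ≠ w) (hzw : z ≠ w) :
    Q (R0 x y z w) y w y w = -84 := by
  have e : Q (R0 x y z w) y w y w = -2 * (B (R0 x y z w) y w y w
      - B (R0 x y z w) y w w y - B (R0 x y z w) y w w y
      + B (R0 x y z w) y y w w) := rfl
  rw [e, B_ywyw hxy hxz hxw hyz hyw hzw, B_ywwy hxy hxz hxw hyz hyw hzw, B_yyww hxy hxz hxw hyz hyw hzw]
  have ht : ∑ p, R0 x y z w w p w p = -6 := by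
    simp only [slice_ww hxy hxz hxw hyz hyw hzw]
    have h : ∀ p : Fin n, -3 * (dl p x * dl p x) - 3 * (dl p y * dl p y)
      = dl p x * (-3 * dl p x) + dl p y * (-3 * dl p y) := by
      intro p; ring
    simp only [h, Finset.sum_add_distrib, sum_dl_left, dl_self]
    norm_num
  rw [ht]
  unfold R0 kn om pr of
  simp only [dl_self, dl_ne hxy, dl_ne hxy.symm, dl_ne hxz, dl_ne hxz.symm, dl_ne hxw,
    dl_ne hxw.symm, dl_ne hyz, dl_ne hyz.symm, dl_ne hyw, dl_ne hyw.symm, dl_ne hzw,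
    dl_ne hzw.symm]
  ring


/-- The null direction. -/
def dvec (x y z w : Fin n) (a : Fin n) : ℝ := dl a x + dl a y - dl a z - dl a w

/-- The null direction, as a traceless symmetric matrix. -/
def phi0 (x y z w : Fin n) : Matrix (Fin n) (Fin n) ℝ := Matrix.diagonal (dvec x y z w)

lemma phi0_symm (x y z w : Fin n) : (phi0 x y z w).IsSymm := Matrix.isSymm_diagonal _

lemma phi0_trace (x y z w : Fin n) : (phi0 x y z w).trace = 0 := by
  unfold phi0
  rw [Matrix.trace_diagonal]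
  have h : ∀ a, dvec x y z w a = dl a x * 1 + dl a y * 1 - dl a z * 1 - dl a w * 1 := by
    intro a
    unfold dvec
    ring
  simp only [h, Finset.sum_add_distrib, Finset.sum_sub_distrib]
  rw [sum_dl_left x (fun _ => 1), sum_dl_left y (fun _ => 1), sum_dl_left z (fun _ => 1),
    sum_dl_left w (fun _ => 1)]
  ring

lemma qform_diag (R : Tensor n) (d : Fin n → ℝ) :
    qform R (Matrix.diagonal d) = ∑ i, ∑ k, R i k i k * d k * d i := by
  unfold qform
  refine Finset.sum_congr rfl fun i _ => ?_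
  rw [Finset.sum_eq_single i]
  · refine Finset.sum_congr rfl fun k _ => ?_
    rw [Finset.sum_eq_single k]
    · simp
    · intro l _ hl
      simp [Matrix.diagonal_apply_ne _ hl.symm]
    · intro h
      exact absurd (Finset.mem_univ _) h
  · intro j _ hj
    refine Finset.sum_eq_zero fun k _ => Finset.sum_eq_zero fun l _ => ?_
    simp [Matrix.diagonal_apply_ne _ hj.symm]
  · intro h
    exact absurd (Finset.mem_univ _) h

lemma sum_dvec (x y z w : Fin n) (F : Fin n → ℝ) :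
    ∑ a, F a * dvec x y z w a = F x + F y - F z - F w := by
  have h : ∀ a, F a * dvec x y z w a = dl a x * F a + dl a y * F a - dl a z * F a
      - dl a w * F a := by
    intro a
    unfold dvec
    ring
  simp only [h, Finset.sum_add_distrib, Finset.sum_sub_distrib, sum_dl_left]

lemma qform_phi0 (R : Tensor n) (x y z w : Fin n) :
    qform R (phi0 x y z w) = (R x x x x + R x y x y - R x z x z - R x w x w)
      + (R y x y x + R y y y y - R y z y z - R y w y w)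
      - (R z x z x + R z y z y - R z z z z - R z w z w)
      - (R w x w x + R w y w y - R w z w z - R w w w w) := by
  unfold phi0
  rw [qform_diag]
  have h : ∀ i, ∑ k, R i k i k * dvec x y z w k * dvec x y z w i
      = (∑ k, R i k i k * dvec x y z w k) * dvec x y z w i := by
    intro i
    rw [Finset.sum_mul]
  simp only [h, sum_dvec]

lemma curv_diag {R : Tensor n} (hR : IsCurv R) (a b c : Fin n) : R a a b c = 0 := by
  have := hR.anti₁ a a b c
  linarith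

lemma curv_swap {R : Tensor n} (hR : IsCurv R) (a b : Fin n) : R b a b a = R a b a b := by
  rw [hR.anti₁ a b b a, hR.anti₂ a b a b]
  ring

lemma qform_R0_phi0 {x y z w : Fin n} (hxy : x ≠ y) (hxz : x ≠ z) (hxw : x ≠ w) (hyz : y ≠ z)
    (hyw : y ≠ w) (hzw : z ≠ w) : qform (R0 x y z w) (phi0 x y z w) = 0 := by
  have hR := isCurv_R0 x y z w
  rw [qform_phi0, curv_diag hR, curv_diag hR, curv_diag hR, curv_diag hR, curv_swap hR x y,
    curv_swap hR x z, curv_swap hR x w, curv_swap hR y z, curv_swap hR y w, curv_swap hR z w]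
  unfold R0 kn om pr of
  simp only [dl_self, dl_ne hxy, dl_ne hxy.symm, dl_ne hxz, dl_ne hxz.symm, dl_ne hxw,
    dl_ne hxw.symm, dl_ne hyz, dl_ne hyz.symm, dl_ne hyw, dl_ne hyw.symm, dl_ne hzw,
    dl_ne hzw.symm]
  ring

/-- The reaction term is negative in the null direction. -/
lemma qform_Q_phi0 {x y z w : Fin n} (hxy : x ≠ y) (hxz : x ≠ z) (hxw : x ≠ w) (hyz : y ≠ z)
    (hyw : y ≠ w) (hzw : z ≠ w) :
    qform (Q (R0 x y z w)) (phi0 x y z w) = 48 - 36 * (n : ℝ) := by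
  have hR := isCurv_Q (isCurv_R0 x y z w)
  rw [qform_phi0, curv_diag hR, curv_diag hR, curv_diag hR, curv_diag hR, curv_swap hR x y,
    curv_swap hR x z, curv_swap hR x w, curv_swap hR y z, curv_swap hR y w, curv_swap hR z w,
    Q_xy hxy hxz hxw hyz hyw hzw, Q_zw hxy hxz hxw hyz hyw hzw, Q_xz hxy hxz hxw hyz hyw hzw,
    Q_xw hxy hxz hxw hyz hyw hzw, Q_yz hxy hxz hxw hyz hyw hzw, Q_yw hxy hxz hxw hyz hyw hzw]
  ring

end

end Pool.Agent.Helper14_RF
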