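import Mathlib
import Pool.Agent.Helper14_RF.Reaction

set_option autoImplicit false
set_option linter.unusedSimpArgs false
set_option linter.unusedVariables false

namespace Pool.Agent.Helper14_RF

open Set Metric

section

variable {n : ℕ}

lemma contDiff_Q : ContDiff ℝ 1 (Q : Tensor n → Tensor n) := by
  have hB : ∀ i j k l : Fin n, ContDiff ℝ 1 (fun R : Tensor n => B R i j k l) := by
    intro i j k l
    unfold B
    fun_prop
  refine contDiff_pi.2 fun i => contDiff_pi.2 fun j => contDiff_pi.2 fun k =>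
    contDiff_pi.2 fun l => ?_
  unfold Q
  have h1 := hB i j k l
  have h2 := hB i j l k
  have h3 := hB i l j k
  have h4 := hB i k j l
  exact contDiff_const.mul (((h1.sub h2).sub h3).add h4)

/-- The curvature tensor of the unit sphere. -/
def sphere (n : ℕ) : Tensor n := fun i j k l => dl i l * dl j k - dl i k * dl j l

lemma isCurv_sphere : IsCurv (sphere n) := by
  constructor
  · intro i j k l
    unfold sphere
    ring
  · intro i j k l
    unfold sphere
    ring
  · intro i j k l
    unfold sphere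
    rw [dl_comm k j, dl_comm l i, dl_comm k i, dl_comm l j]
    ring
  · intro i j k l
    unfold sphere
    rw [dl_comm j i, dl_comm k i, dl_comm k j]
    ring

lemma qform_sphere (φ : Matrix (Fin n) (Fin n) ℝ) (hφ : φ.IsSymm) (htr : φ.trace = 0) :
    qform (sphere n) φ = ∑ i, ∑ j, φ i j ^ 2 := by
  have htr' : ∑ i, φ i i = 0 := htr
  unfold qform sphere
  have h : ∀ i j, ∑ k, ∑ l, (dl i l * dl k j - dl i j * dl k l) * φ k l * φ i j
      = φ i j ^ 2 := by
    intro i j
    have h1 : ∀ k, ∑ l, (dl i l * dl k j - dl i j * dl k l) * φ k l * φ i j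
        = dl k j * φ k i * φ i j - dl i j * φ i j * φ k k := by
      intro k
      have h2 : ∀ l, (dl i l * dl k j - dl i j * dl k l) * φ k l * φ i j
          = dl i l * (dl k j * φ k l * φ i j) - dl k l * (dl i j * φ i j * φ k l) := by
        intro l
        ring
      rw [Finset.sum_congr rfl (fun l _ => h2 l), Finset.sum_sub_distrib,
        sum_dl_right i (fun l => dl k j * φ k l * φ i j),
        sum_dl_right k (fun l => dl i j * φ i j * φ k l)]
    rw [Finset.sum_congr rfl (fun k _ => h1 k), Finset.sum_sub_distrib, ← Finset.mul_sum, htr']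
    have h3 : ∀ k, dl k j * φ k i * φ i j = dl k j * (φ k i * φ i j) := by
      intro k; ring
    rw [Finset.sum_congr rfl (fun k _ => h3 k), sum_dl_left j (fun k => φ k i * φ i j),
      hφ.apply i j]
    ring
  exact Finset.sum_congr rfl fun i _ => Finset.sum_congr rfl fun j _ => h i j

lemma qform_add_smul (R S : Tensor n) (c : ℝ) (φ : Matrix (Fin n) (Fin n) ℝ) :
    qform (R + c • S) φ = qform R φ + c * qform S φ := by
  unfold qform
  simp only [Finset.mul_sum, ← Finset.sum_add_distrib]
  refine Finset.sum_congr rfl fun i _ => Finset.sum_congr rfl fun j _ =>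
    Finset.sum_congr rfl fun k _ => Finset.sum_congr rfl fun l _ => ?_
  simp only [Pi.add_apply, Pi.smul_apply, smul_eq_mul]
  ring

lemma pos_perturb {R : Tensor n} (hR : NonnegSecondKind R) {c : ℝ} (hc : 0 < c) :
    PosSecondKind (R + c • sphere n) := by
  intro φ hφ htr hne
  rw [qform_add_smul, qform_sphere φ hφ htr]
  have h1 := hR φ hφ htr
  have h2 : 0 < ∑ i, ∑ j, φ i j ^ 2 := by
    obtain ⟨i, j, hij⟩ : ∃ i j, φ i j ≠ 0 := by
      by_contra hcon
      push Not at hcon
      apply hne
      ext i j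
      exact hcon i j
    refine Finset.sum_pos' (fun i _ => Finset.sum_nonneg fun j _ => sq_nonneg _)
      ⟨i, Finset.mem_univ _, ?_⟩
    exact Finset.sum_pos' (fun j _ => sq_nonneg _) ⟨j, Finset.mem_univ _, by positivity⟩
  have h3 : 0 < c * ∑ i, ∑ j, φ i j ^ 2 := mul_pos hc h2
  linarith

/-- The quadratic form as a continuous linear functional of the tensor. -/
noncomputable def qformL (φ : Matrix (Fin n) (Fin n) ℝ) : Tensor n →L[ℝ] ℝ :=
  LinearMap.toContinuousLinearMap
    { toFun := fun R => qform R φ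
      map_add' := by
        intro R S
        have := qform_add_smul R S 1 φ
        simpa using this
      map_smul' := by
        intro c R
        have := qform_add_smul 0 R c φ
        have h0 : qform (0 : Tensor n) φ = 0 := by
          unfold qform
          simp
        rw [h0, zero_add, zero_add] at this
        simpa using this }

lemma qformL_apply (φ : Matrix (Fin n) (Fin n) ℝ) (R : Tensor n) : qformL φ R = qform R φ := rfl

/-- Abstract statement: a boundary point of the cone at which the reaction term points strictly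
outward gives a solution that starts in the open cone and leaves the closed cone. -/
theorem exists_solution {R₀ : Tensor n} (hR₀ : IsCurv R₀) (hnn : NonnegSecondKind R₀)
    {φ : Matrix (Fin n) (Fin n) ℝ} (h0 : qform R₀ φ = 0) (hneg : qform (Q R₀) φ < 0) :
    ∃ (T : ℝ) (R : ℝ → Tensor n), 0 < T ∧ (∀ t ∈ Icc 0 T, IsCurv (R t)) ∧
      (∀ t ∈ Icc 0 T, HasDerivAt R (Q (R t)) t) ∧ PosSecondKind (R 0) ∧ qform (R T) φ < 0 := by
  classical
  obtain ⟨pj, hpj⟩ := Submodule.ClosedComplemented.of_finiteDimensional (𝕜 := ℝ) (curvSpace n)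
  let f : curvSpace n → curvSpace n := fun x => pj (Q (x : Tensor n))
  have hf : ∀ x : curvSpace n, ((f x : curvSpace n) : Tensor n) = Q (x : Tensor n) := by
    intro x
    have h1 : IsCurv (Q (x : Tensor n)) := isCurv_Q x.2
    have h2 := hpj ⟨Q (x : Tensor n), h1⟩
    show ((pj (Q (x : Tensor n)) : curvSpace n) : Tensor n) = _
    rw [h2]
  have hfc : ContDiff ℝ 1 f :=
    pj.contDiff.comp (contDiff_Q.comp (curvSpace n).subtypeL.contDiff)
  let x₀ : curvSpace n := ⟨R₀, hR₀⟩
  obtain ⟨ε, hε, a, r, L, K, hr, hpl⟩ := IsPicardLindelof.of_contDiffAt_one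
    (hfc.contDiffAt (x := x₀))
  obtain ⟨α, hα, L', hL'⟩ :=
    (hpl 0).exists_forall_mem_closedBall_eq_hasDerivWithinAt_lipschitzOnWith
  simp only [zero_sub, zero_add] at hα hL'
  -- the derivative in the ambient space
  have hder : ∀ x ∈ closedBall x₀ (r : ℝ), ∀ t ∈ Ioo (-ε) ε,
      HasDerivAt (fun s => ((α x s : curvSpace n) : Tensor n)) (Q (α x t : Tensor n)) t := by
    intro x hx t ht
    have h1 := ((hα x hx).2 t (Ioo_subset_Icc_self ht)).hasDerivAt (Icc_mem_nhds ht.1 ht.2)
    have h2 := (curvSpace n).subtypeL.hasFDerivAt.comp_hasDerivAt t h1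
    have h3 : (curvSpace n).subtypeL (f (α x t)) = Q (α x t : Tensor n) := hf _
    rw [h3] at h2
    exact h2
  have hx₀ : x₀ ∈ closedBall x₀ (r : ℝ) := mem_closedBall_self r.2
  -- the solution through the boundary point becomes negative
  have hg : HasDerivAt (fun s => qform ((α x₀ s : curvSpace n) : Tensor n) φ)
      (qform (Q R₀) φ) 0 := by
    have h1 := hder x₀ hx₀ 0 ⟨by linarith, hε⟩
    have h2 := (qformL φ).hasFDerivAt.comp_hasDerivAt (0 : ℝ) h1
    have h3 : α x₀ 0 = x₀ := (hα x₀ hx₀).1
    rw [h3] at h2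
    exact h2
  have hg0 : qform ((α x₀ 0 : curvSpace n) : Tensor n) φ = 0 := by
    have h3 : α x₀ 0 = x₀ := (hα x₀ hx₀).1
    rw [h3]
    exact h0
  obtain ⟨T, hT0, hTε, hTneg⟩ : ∃ T, 0 < T ∧ T < ε ∧
      qform ((α x₀ T : curvSpace n) : Tensor n) φ < 0 := by
    have h1 := hg.tendsto_slope_zero_right
    have h2 : ∀ᶠ t in nhdsWithin (0 : ℝ) (Ioi 0),
        t⁻¹ • (qform ((α x₀ (0 + t) : curvSpace n) : Tensor n) φ
          - qform ((α x₀ 0 : curvSpace n) : Tensor n) φ) < 0 := h1.eventually_lt_const hneg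
    have h3 : ∀ᶠ t in nhdsWithin (0 : ℝ) (Ioi 0), t ∈ Ioo (0 : ℝ) ε :=
      Ioo_mem_nhdsGT hε
    obtain ⟨T, hT1, hT2⟩ := (h2.and h3).exists
    refine ⟨T, hT2.1, hT2.2, ?_⟩
    rw [hg0, sub_zero, zero_add, smul_eq_mul] at hT1
    have h4 : 0 < T⁻¹ := inv_pos.2 hT2.1
    by_contra hcon
    push Not at hcon
    have := mul_nonneg h4.le hcon
    linarith
  -- perturb the initial value
  have hTmem : T ∈ Icc (-ε) ε := ⟨by linarith, hTε.le⟩
  let S : curvSpace n := ⟨sphere n, isCurv_sphere⟩
  have hcont : ContinuousWithinAt (fun x => qform ((α x T : curvSpace n) : Tensor n) φ)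
      (closedBall x₀ (r : ℝ)) x₀ := by
    have h1 : ContinuousWithinAt (fun x => α x T) (closedBall x₀ (r : ℝ)) x₀ :=
      (hL' T hTmem).continuousOn x₀ hx₀
    exact ((qformL φ).continuous.comp continuous_subtype_val).continuousAt.comp_continuousWithinAt h1
  have hev : ∀ᶠ x in nhdsWithin x₀ (closedBall x₀ (r : ℝ)),
      qform ((α x T : curvSpace n) : Tensor n) φ < 0 := hcont.eventually_lt_const hTneg
  have hrpos : (0 : ℝ) < r := hr
  have hball : closedBall x₀ (r : ℝ) ∈ nhds x₀ := closedBall_mem_nhds _ hrpos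
  rw [nhdsWithin_eq_nhds.2 hball] at hev
  have hpath : Filter.Tendsto (fun c : ℝ => x₀ + c • S) (nhdsWithin 0 (Ioi 0)) (nhds x₀) := by
    have : Continuous (fun c : ℝ => x₀ + c • S) := by fun_prop
    have h2 := this.tendsto 0
    simp only [zero_smul, add_zero] at h2
    exact h2.mono_left nhdsWithin_le_nhds
  have hev2 := (hpath.eventually hev).and (hpath.eventually hball)
  obtain ⟨c, ⟨hc1, hc2⟩, hc3⟩ := (hev2.and self_mem_nhdsWithin).exists
  have hc3' : (0 : ℝ) < c := hc3
  refine ⟨T, fun t => ((α (x₀ + c • S) t : curvSpace n) : Tensor n), hT0, ?_, ?_, ?_, hc1⟩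
  · intro t _
    exact (α (x₀ + c • S) t).2
  · intro t ht
    exact hder _ hc2 t ⟨by linarith [ht.1], by linarith [ht.2]⟩
  · have h3 : α (x₀ + c • S) 0 = x₀ + c • S := (hα _ hc2).1
    show PosSecondKind ((α (x₀ + c • S) 0 : curvSpace n) : Tensor n)
    rw [h3]
    exact pos_perturb hnn hc3'

end

end Pool.Agent.Helper14_RF
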